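import Mathlib
import Pool.Agent.Helper64.PNT.Primes

/-!
Sums of three positive integers with product one less than the square of a prime: no congruence
obstruction, and a lower bound for the number of representable integers in a residue class.

For a positive integer `x` and a prime `p = 1 + x l` the triple `(x, l, p + 1)` has product
`p ^ 2 - 1` and sum `n = x + 2 + (x + 1) l`, that is `n - 1 = (x + 1) (l + 1)`. For fixed `x` this
family has at least a constant times `X / log X` members up to `X`; two families have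
`o (X / log X)` common members; and the sum of the constants over the multiples `x` of `m (B + 1)`
diverges.
-/

set_option autoImplicit false

namespace Pool.Agent.Results.MP_7031b2_nt.NoCongruenceObstruction

open Filter Topology

/-- a solution `x y z + 1 = u ^ 2` in positive integers with `u` coprime to `m` can be moved, within
the same residue classes modulo `m` and with the same `x` and `y`, to arbitrarily large `z` for
which the square root is a prime -/
theorem lift (m x y z u : ℕ) (hm : 0 < m) (hx : 0 < x) (hy : 0 < y) (hu : u.Coprime m)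
    (h : x * y * z + 1 = u ^ 2) (N : ℕ) :
    ∃ z' p : ℕ, N < z' ∧ p.Prime ∧ z' ≡ z [MOD m] ∧ p ≡ u [MOD m] ∧
      x * y * z' + 1 = p ^ 2 := by
  have hu0 : 0 < u := by
    rcases Nat.eq_zero_or_pos u with h0 | h0
    · rw [h0] at h
      simp at h
    · exact h0
  have hq : x * y * m ≠ 0 := by positivity
  have hc : u.Coprime (x * y) := by
    have h1 : Nat.gcd u (x * y) ∣ x * y * z + 1 := by
      rw [h]
      exact (Nat.gcd_dvd_left u (x * y)).trans (Dvd.intro_left u (by ring))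
    have h2 : Nat.gcd u (x * y) ∣ x * y * z := (Nat.gcd_dvd_right u (x * y)).mul_right z
    exact Nat.eq_one_of_dvd_one ((Nat.dvd_add_right h2).1 h1)
  have hcop : u.Coprime (x * y * m) := Nat.Coprime.mul_right hc hu
  obtain ⟨p, hp1, hp2, hp3⟩ := Nat.forall_exists_prime_gt_and_modEq (u + x * y * m * N) hq hcop
  have hle : u ≤ p := by
    have := Nat.le_add_right u (x * y * m * N)
    omega
  obtain ⟨j, hj⟩ := (Nat.modEq_iff_dvd' hle).1 hp3.symm
  have hpj : p = u + x * y * m * j := by omega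
  have hjN : N < j := by
    by_contra hcon
    push Not at hcon
    have h3 : x * y * m * j ≤ x * y * m * N := Nat.mul_le_mul_left _ hcon
    omega
  refine ⟨z + m * (2 * u * j + x * y * m * j ^ 2), p, ?_, hp2, ?_, ?_, ?_⟩
  · have h4 : j ≤ m * (2 * u * j + x * y * m * j ^ 2) := by
      have h5 : 1 * j ≤ (m * (2 * u)) * j :=
        Nat.mul_le_mul_right j (Nat.succ_le_of_lt (by positivity))
      nlinarith [Nat.zero_le (m * (x * y * m * j ^ 2))]
    omega
  · exact (Nat.modEq_iff_dvd' (Nat.le_add_right _ _)).2 (by simp) |>.symm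
  · rw [hpj]
    exact (Nat.modEq_iff_dvd' (Nat.le_add_right _ _)).2
      (by rw [Nat.add_sub_cancel_left]; exact ⟨x * y * j, by ring⟩) |>.symm
  · rw [hpj]
    calc x * y * (z + m * (2 * u * j + x * y * m * j ^ 2)) + 1
        = (x * y * z + 1) + x * y * m * (2 * u * j + x * y * m * j ^ 2) := by ring
      _ = (u + x * y * m * j) ^ 2 := by rw [h]; ring

/-- the sum of `log p` over the primes `p ≤ y` with `p ≡ c` modulo `M` which avoid the residue
classes in the list `R` -/
noncomputable def thetaAv (M c : ℕ) (R : List (ℕ × ℕ)) (y : ℝ) : ℝ :=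
  open Classical in
  ∑ p ∈ (Finset.Icc 1 ⌊y⌋₊).filter
    (fun p : ℕ => p.Prime ∧ p ≡ c [MOD M] ∧ ∀ e ∈ R, ¬ p ≡ e.2 [MOD e.1]), Real.log p

/-- the prime number theorem in progressions for primes avoiding the residue classes in `R` -/
theorem thetaAv_tendsto (R : List (ℕ × ℕ)) : ∀ M c : ℕ, 0 < M → c.Coprime M →
    (∀ e ∈ R, e.1.Prime ∧ ¬ e.1 ∣ e.2 ∧ ¬ e.1 ∣ M) → (R.map Prod.fst).Nodup →
    Tendsto (fun y : ℝ => thetaAv M c R y / y) atTop
      (𝓝 ((M.totient : ℝ)⁻¹ * (R.map (fun e => 1 - 1 / ((e.1 : ℝ) - 1))).prod)) := by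
  classical
  induction R with
  | nil =>
    intro M c hM hc _ _
    have : NeZero M := ⟨hM.ne'⟩
    have hb : IsUnit ((c : ℕ) : ZMod M) := (ZMod.unitOfCoprime _ hc).isUnit
    have h1 := Pool.Agent.Helper64.PNT.thetaAP_tendsto hb
    have h2 : ∀ y : ℝ, thetaAv M c [] y = Pool.Agent.Helper64.PNT.thetaAP ((c : ℕ) : ZMod M) y := by
      intro y
      unfold thetaAv Pool.Agent.Helper64.PNT.thetaAP
      apply Finset.sum_congr _ (fun _ _ => rfl)
      apply Finset.filter_congr
      intro p _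
      rw [ZMod.natCast_eq_natCast_iff]
      simp
    simp only [h2, List.map_nil, List.prod_nil, mul_one]
    exact h1
  | cons e R ih =>
    intro M c hM hc hR hnd
    rw [List.map_cons, List.nodup_cons] at hnd
    obtain ⟨hnd1, hnd2⟩ := hnd
    obtain ⟨he1, he2, he3⟩ := hR e List.mem_cons_self
    have hR' : ∀ f ∈ R, f.1.Prime ∧ ¬ f.1 ∣ f.2 ∧ ¬ f.1 ∣ M :=
      fun f hf => hR f (List.mem_cons_of_mem _ hf)
    have hMe : M.Coprime e.1 := ((Nat.Prime.coprime_iff_not_dvd he1).2 he3).symm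
    obtain ⟨c', hc'1, hc'2⟩ := Nat.chineseRemainder hMe c e.2
    have hcop : c'.Coprime (M * e.1) := by
      apply Nat.Coprime.mul_right
      · have h := hc'1.gcd_eq
        rw [Nat.Coprime, h]
        exact hc
      · have h := hc'2.gcd_eq
        rw [Nat.Coprime, h]
        exact ((Nat.Prime.coprime_iff_not_dvd he1).2 he2).symm
    have hR2 : ∀ f ∈ R, f.1.Prime ∧ ¬ f.1 ∣ f.2 ∧ ¬ f.1 ∣ M * e.1 := by
      intro f hf
      obtain ⟨h1, h2, h3⟩ := hR' f hf
      refine ⟨h1, h2, fun h => ?_⟩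
      rcases (Nat.Prime.dvd_mul h1).1 h with h4 | h4
      · exact h3 h4
      · have h5 := (Nat.prime_dvd_prime_iff_eq h1 he1).1 h4
        exact hnd1 (List.mem_map.2 ⟨f, hf, h5⟩)
    have t1 := ih M c hM hc hR' hnd2
    have t2 := ih (M * e.1) c' (Nat.mul_pos hM he1.pos) hcop hR2 hnd2
    have hdiff : ∀ y : ℝ, thetaAv M c (e :: R) y = thetaAv M c R y - thetaAv (M * e.1) c' R y := by
      intro y
      unfold thetaAv
      rw [eq_sub_iff_add_eq, Finset.sum_filter, Finset.sum_filter, Finset.sum_filter,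
        ← Finset.sum_add_distrib]
      apply Finset.sum_congr rfl
      intro p _
      have hiff : p ≡ c' [MOD M * e.1] ↔ (p ≡ c [MOD M] ∧ p ≡ e.2 [MOD e.1]) := by
        rw [← Nat.modEq_and_modEq_iff_modEq_mul hMe]
        constructor
        · rintro ⟨h1, h2⟩
          exact ⟨h1.trans hc'1, h2.trans hc'2⟩
        · rintro ⟨h1, h2⟩
          exact ⟨h1.trans hc'1.symm, h2.trans hc'2.symm⟩
      simp only [hiff, List.forall_mem_cons]
      by_cases h1 : p.Prime <;> by_cases h2 : p ≡ c [MOD M] <;> by_cases h3 : p ≡ e.2 [MOD e.1] <;>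
        by_cases h4 : ∀ e ∈ R, ¬ p ≡ e.2 [MOD e.1] <;> simp [h1, h2, h3]
    have t3 := t1.sub t2
    refine (t3.congr (fun y => ?_)).trans_eq ?_
    · rw [hdiff y, sub_div]
    · congr 1
      rw [Nat.totient_mul hMe, Nat.totient_prime he1, List.map_cons, List.prod_cons]
      push_cast [he1.one_le]
      rw [mul_inv]
      ring

/-- products of `1 - 1 / (r - 1)` over large primes `r` are as small as we like -/
theorem exists_small_prod (D : ℕ) (ε : ℝ) (hε : 0 < ε) : ∃ R : Finset ℕ,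
    (∀ r ∈ R, r.Prime ∧ D < r) ∧ ∏ r ∈ R, (1 - 1 / ((r : ℝ) - 1)) < ε := by
  classical
  have h1 := (not_summable_iff_tendsto_nat_atTop_of_nonneg (f := Set.indicator {p : ℕ | p.Prime}
    (fun n : ℕ => (1 : ℝ) / n)) (fun n => Set.indicator_nonneg (fun _ _ => by positivity) n)).1
    not_summable_one_div_on_primes
  obtain ⟨n, hn⟩ := (h1.eventually_ge_atTop (1 - Real.log ε +
    ∑ i ∈ Finset.range (D + 3),
      Set.indicator {p : ℕ | p.Prime} (fun n : ℕ => (1 : ℝ) / n) i)).exists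
  refine ⟨(Finset.range n).filter (fun r => r.Prime ∧ D + 2 < r), ?_, ?_⟩
  · intro r hr
    rw [Finset.mem_filter] at hr
    exact ⟨hr.2.1, by omega⟩
  · have h2 : ∑ i ∈ Finset.range n, Set.indicator {p : ℕ | p.Prime} (fun n : ℕ => (1 : ℝ) / n) i ≤
        ∑ r ∈ (Finset.range n).filter (fun r => r.Prime ∧ D + 2 < r), 1 / ((r : ℝ) - 1) +
        ∑ i ∈ Finset.range (D + 3),
          Set.indicator {p : ℕ | p.Prime} (fun n : ℕ => (1 : ℝ) / n) i := by
      have h3 : ∀ i, 0 ≤ Set.indicator {p : ℕ | p.Prime} (fun n : ℕ => (1 : ℝ) / n) i :=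
        fun n => Set.indicator_nonneg (fun _ _ => by positivity) n
      rw [← Finset.sum_filter_add_sum_filter_not (Finset.range n) (fun r => r.Prime ∧ D + 2 < r)]
      apply add_le_add
      · apply Finset.sum_le_sum
        intro r hr
        rw [Finset.mem_filter] at hr
        rw [Set.indicator_of_mem (show r ∈ {p : ℕ | p.Prime} from hr.2.1)]
        have h4 : (2 : ℝ) < r := by exact_mod_cast (by omega : 2 < r)
        apply one_div_le_one_div_of_le <;> linarith
      · rw [← Finset.sum_filter_of_ne (p := fun i => i ∈ Finset.range (D + 3))]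
        · apply Finset.sum_le_sum_of_subset_of_nonneg
          · intro i hi
            rw [Finset.mem_filter] at hi
            exact hi.2
          · intro i _ _
            exact h3 i
        · intro i hi hne
          rw [Finset.mem_filter] at hi
          have h5 : i.Prime := by
            by_contra hcon
            exact hne (Set.indicator_of_notMem hcon _)
          rw [Finset.mem_range]
          by_contra hcon
          exact hi.2 ⟨h5, by omega⟩
    have h6 : 1 - Real.log ε ≤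
        ∑ r ∈ (Finset.range n).filter (fun r => r.Prime ∧ D + 2 < r), 1 / ((r : ℝ) - 1) := by
      linarith
    calc ∏ r ∈ (Finset.range n).filter (fun r => r.Prime ∧ D + 2 < r), (1 - 1 / ((r : ℝ) - 1))
        ≤ ∏ r ∈ (Finset.range n).filter (fun r => r.Prime ∧ D + 2 < r),
            Real.exp (-(1 / ((r : ℝ) - 1))) := by
          apply Finset.prod_le_prod
          · intro r hr
            rw [Finset.mem_filter] at hr
            have h4 : (2 : ℝ) < r := by exact_mod_cast (by omega : 2 < r)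
            have h7 : 1 / ((r : ℝ) - 1) ≤ 1 := by
              rw [div_le_one (by linarith)]
              linarith
            linarith
          · intro r _
            have := Real.add_one_le_exp (-(1 / ((r : ℝ) - 1)))
            linarith
      _ = Real.exp (∑ r ∈ (Finset.range n).filter (fun r => r.Prime ∧ D + 2 < r),
            (-(1 / ((r : ℝ) - 1)))) := (Real.exp_sum _ _).symm
      _ ≤ Real.exp (Real.log ε - 1) := by
          apply Real.exp_le_exp.2
          rw [Finset.sum_neg_distrib]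
          linarith
      _ < Real.exp (Real.log ε) := by
          apply Real.exp_lt_exp.2
          linarith
      _ = ε := Real.exp_log hε

/-- the integers `n ≤ X` in the family of `x` -/
noncomputable def fam (x X : ℕ) : Finset ℕ :=
  open Classical in
  (Finset.Icc 1 X).filter (fun n => ∃ l, (1 + x * l).Prime ∧ n = x + 2 + (x + 1) * l)

/-- a constant is at most `ε X / log X` for large `X` -/
theorem eventually_const_le (C ε : ℝ) (hε : 0 < ε) :
    ∀ᶠ X : ℕ in atTop, C ≤ ε * ((X : ℝ) / Real.log X) := by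
  have h1 : ∀ᶠ X : ℕ in atTop, Real.log (X : ℝ) ≤ (ε / (|C| + 1)) * X := by
    have h6 := (Real.isLittleO_log_id_atTop.comp_tendsto
      (tendsto_natCast_atTop_atTop (R := ℝ))).bound (c := ε / (|C| + 1)) (by positivity)
    filter_upwards [h6] with X hX
    simp only [Function.comp, id, Real.norm_eq_abs, Nat.abs_cast] at hX
    exact (le_abs_self _).trans hX
  filter_upwards [h1, eventually_ge_atTop 2] with X hX hX2
  have hlog : 0 < Real.log (X : ℝ) := Real.log_pos (by exact_mod_cast (by omega : 1 < X))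
  rw [← mul_div_assoc, le_div_iff₀ hlog]
  have h2 : (|C| + 1) * Real.log X ≤ ε * X := by
    calc (|C| + 1) * Real.log X ≤ (|C| + 1) * ((ε / (|C| + 1)) * X) := by gcongr
      _ = ε * X := by field_simp
  nlinarith [le_abs_self C]

/-- `√X` is at most `ε X / log X` for large `X` -/
theorem eventually_sqrt_le (ε : ℝ) (hε : 0 < ε) :
    ∀ᶠ X : ℕ in atTop, √(X : ℝ) ≤ ε * ((X : ℝ) / Real.log X) := by
  have h1 : ∀ᶠ X : ℕ in atTop, Real.log (X : ℝ) ≤ ε * √(X : ℝ) := by
    have h6 := ((isLittleO_log_rpow_atTop (r := 1 / 2) (by norm_num)).comp_tendsto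
      (tendsto_natCast_atTop_atTop (R := ℝ))).bound (c := ε) hε
    filter_upwards [h6] with X hX
    simp only [Function.comp, Real.norm_eq_abs] at hX
    rw [← Real.sqrt_eq_rpow, abs_of_nonneg (Real.sqrt_nonneg _)] at hX
    exact (le_abs_self _).trans hX
  filter_upwards [h1, eventually_ge_atTop 2] with X hX hX2
  have hlog : 0 < Real.log (X : ℝ) := Real.log_pos (by exact_mod_cast (by omega : 1 < X))
  rw [← mul_div_assoc, le_div_iff₀ hlog]
  have h2 : √(X : ℝ) * √(X : ℝ) = X := Real.mul_self_sqrt (Nat.cast_nonneg X)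
  calc √(X : ℝ) * Real.log X ≤ √(X : ℝ) * (ε * √(X : ℝ)) := by gcongr
    _ = ε * (√(X : ℝ) * √(X : ℝ)) := by ring
    _ = ε * X := by rw [h2]

/-- two different families have few members in common -/
theorem pair (x x' : ℕ) (hx : 0 < x) (hx' : 0 < x') (hne : x ≠ x') (ε : ℝ) (hε : 0 < ε) :
    ∀ᶠ X : ℕ in atTop, ((fam x X ∩ fam x' X).card : ℝ) ≤ ε * ((X : ℝ) / Real.log X) := by
  classical
  obtain ⟨R, hR1, hR2⟩ := exists_small_prod
    (x' * (x + 1) * (((x' : ℤ) - x).natAbs * (1 + x * x')) + x * (x' + 1)) (ε / 8) (by positivity)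
  -- the forbidden classes
  have hcl : ∀ r ∈ R, ∃ c : ℕ, ¬ r ∣ c ∧ ∀ p : ℕ, p ≡ c [MOD r] →
      (r : ℤ) ∣ x' * (x + 1) * p - (x' - x) * (1 + x * x') := by
    intro r hr
    obtain ⟨hr1, hr2⟩ := hR1 r hr
    have : Fact r.Prime := ⟨hr1⟩
    have hd : ((x' : ℤ) - x).natAbs ≠ 0 := by omega
    have hnd : ∀ k : ℕ, 0 < k → k < r → ¬ r ∣ k := fun k h1 h2 => Nat.not_dvd_of_pos_of_lt h1 h2
    have hA : ((x' * (x + 1) : ℕ) : ZMod r) ≠ 0 := by
      rw [Ne, ZMod.natCast_eq_zero_iff]
      apply hnd _ (by positivity)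
      have : x' * (x + 1) * 1 ≤ x' * (x + 1) * (((x' : ℤ) - x).natAbs * (1 + x * x')) :=
        Nat.mul_le_mul_left _ (Nat.succ_le_of_lt (by positivity))
      omega
    have hB : ((((x' : ℤ) - x) * (1 + x * x') : ℤ) : ZMod r) ≠ 0 := by
      have h1 : ((1 : ℤ) + x * x').natAbs = 1 + x * x' := by
        exact_mod_cast Int.natAbs_natCast (1 + x * x')
      rw [Ne, ZMod.intCast_zmod_eq_zero_iff_dvd, Int.natCast_dvd, Int.natAbs_mul, h1]
      apply hnd _ (by positivity)
      have : 1 * (((x' : ℤ) - x).natAbs * (1 + x * x')) ≤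
          x' * (x + 1) * (((x' : ℤ) - x).natAbs * (1 + x * x')) :=
        Nat.mul_le_mul_right _ (Nat.succ_le_of_lt (by positivity))
      have h2 : 0 < x * (x' + 1) := by positivity
      omega
    refine ⟨(((((x' : ℤ) - x) * (1 + x * x') : ℤ) : ZMod r) / ((x' * (x + 1) : ℕ) : ZMod r)).val,
      ?_, ?_⟩
    · rw [← ZMod.natCast_eq_zero_iff, ZMod.natCast_zmod_val]
      exact div_ne_zero hB hA
    · intro p hp
      rw [← ZMod.natCast_eq_natCast_iff, ZMod.natCast_zmod_val, eq_div_iff hA] at hp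
      rw [← ZMod.intCast_zmod_eq_zero_iff_dvd]
      push_cast at hp ⊢
      rw [← hp]
      ring
  choose! c hc1 hc2 using hcl
  obtain ⟨L, hL⟩ : ∃ L : List (ℕ × ℕ), L = R.toList.map (fun r => (r, c r)) := ⟨_, rfl⟩
  have hLmem : ∀ e ∈ L, e.1 ∈ R ∧ e.2 = c e.1 := by
    intro e he
    rw [hL, List.mem_map] at he
    obtain ⟨r, hr, rfl⟩ := he
    exact ⟨Finset.mem_toList.1 hr, rfl⟩
  have t1 := thetaAv_tendsto L 1 0 one_pos (by simp) (by
    intro e he
    obtain ⟨h1, h2⟩ := hLmem e he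
    refine ⟨(hR1 _ h1).1, h2 ▸ hc1 _ h1, (hR1 _ h1).1.not_dvd_one⟩) (by
    rw [hL, List.map_map]
    simpa [Function.comp_def] using R.nodup_toList)
  have hprod : (L.map (fun e => 1 - 1 / ((e.1 : ℝ) - 1))).prod =
      ∏ r ∈ R, (1 - 1 / ((r : ℝ) - 1)) := by
    rw [hL, List.map_map, ← Finset.prod_map_toList]
    rfl
  rw [hprod, Nat.totient_one, Nat.cast_one, inv_one, one_mul] at t1
  have t2 := (t1.comp (tendsto_natCast_atTop_atTop (R := ℝ))).eventually (gt_mem_nhds hR2)
  filter_upwards [t2, eventually_const_le (R.card) (ε / 4) (by positivity),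
    eventually_sqrt_le (ε / 4) (by positivity), eventually_ge_atTop 2] with X h1 h2 h3 h4
  simp only [Function.comp] at h1
  have hX0 : (0 : ℝ) < X := by exact_mod_cast (by omega : 0 < X)
  have hlog : 0 < Real.log (X : ℝ) := Real.log_pos (by exact_mod_cast (by omega : 1 < X))
  rw [div_lt_iff₀ hX0] at h1
  obtain ⟨Z, hZ⟩ : ∃ Z : Finset ℕ, Z = (Finset.Icc 1 X).filter
    (fun p => p.Prime ∧ ∀ r ∈ R, ¬ p ≡ c r [MOD r]) := ⟨_, rfl⟩
  have hsub : fam x X ∩ fam x' X ⊆ R.image (fun r => x' + 2 + (x' + 1) * ((r - 1) / x')) ∪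
      Z.image (fun p => x + 2 + (x + 1) * ((p - 1) / x)) := by
    intro n hn
    unfold fam at hn
    rw [Finset.mem_inter, Finset.mem_filter, Finset.mem_filter, Finset.mem_Icc] at hn
    obtain ⟨⟨⟨hn1, hn2⟩, l, hl1, hl2⟩, -, l', hl'1, hl'2⟩ := hn
    have e1 : (1 + x * l - 1) / x = l := by
      rw [Nat.add_sub_cancel_left]
      exact Nat.mul_div_cancel_left l hx
    have e2 : (1 + x' * l' - 1) / x' = l' := by
      rw [Nat.add_sub_cancel_left]
      exact Nat.mul_div_cancel_left l' hx'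
    rw [Finset.mem_union, Finset.mem_image, Finset.mem_image]
    by_cases hR : 1 + x' * l' ∈ R
    · exact Or.inl ⟨_, hR, by rw [e2, hl'2]⟩
    · refine Or.inr ⟨1 + x * l, ?_, by rw [e1, hl2]⟩
      rw [hZ, Finset.mem_filter, Finset.mem_Icc]
      refine ⟨⟨by omega, ?_⟩, hl1, ?_⟩
      · have : (x + 1) * l = x * l + l := by ring
        omega
      · intro r hr hmod
        obtain ⟨hr1, hr2⟩ := hR1 r hr
        have h5 := hc2 r hr _ hmod
        have h6 : (x : ℤ) + 2 + (x + 1) * l = x' + 2 + (x' + 1) * l' := by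
          exact_mod_cast hl2.symm.trans hl'2
        have h7 : (x' : ℤ) * (x + 1) * ((1 + x * l : ℕ) : ℤ) - (x' - x) * (1 + x * x') =
            ((x * (x' + 1) * (1 + x' * l') : ℕ) : ℤ) := by
          push_cast
          linear_combination (x * x' : ℤ) * h6
        rw [h7, Int.natCast_dvd_natCast] at h5
        rcases (Nat.Prime.dvd_mul hr1).1 h5 with h8 | h8
        · exact Nat.not_dvd_of_pos_of_lt (by positivity) (by omega) h8
        · have h9 := (Nat.prime_dvd_prime_iff_eq hr1 hl'1).1 h8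
          exact hR (h9 ▸ hr)
  have hcard1 : (fam x X ∩ fam x' X).card ≤ R.card + Z.card :=
    (Finset.card_le_card hsub).trans ((Finset.card_union_le _ _).trans
      (Nat.add_le_add Finset.card_image_le Finset.card_image_le))
  obtain ⟨Z2, hZ2⟩ : ∃ Z2 : Finset ℕ, Z2 = Z.filter (fun p => Nat.sqrt X < p) := ⟨_, rfl⟩
  have hcard2 : Z.card ≤ Nat.sqrt X + Z2.card := by
    have h10 : Z ⊆ Finset.Icc 1 (Nat.sqrt X) ∪ Z2 := by
      intro p hp
      rw [Finset.mem_union, hZ2, Finset.mem_filter, Finset.mem_Icc]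
      have h11 := hp
      rw [hZ, Finset.mem_filter, Finset.mem_Icc] at h11
      by_cases h : Nat.sqrt X < p
      · exact Or.inr ⟨hp, h⟩
      · exact Or.inl ⟨by omega, by omega⟩
    calc Z.card ≤ (Finset.Icc 1 (Nat.sqrt X) ∪ Z2).card := Finset.card_le_card h10
      _ ≤ (Finset.Icc 1 (Nat.sqrt X)).card + Z2.card := Finset.card_union_le _ _
      _ = Nat.sqrt X + Z2.card := by rw [Nat.card_Icc]; omega
  have hθ : (Z2.card : ℝ) * (Real.log X / 2) ≤ thetaAv 1 0 L X := by
    have h12 : Z2.card • (Real.log X / 2) ≤ ∑ p ∈ Z2, Real.log (p : ℝ) := by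
      apply Finset.card_nsmul_le_sum
      intro p hp
      rw [hZ2, Finset.mem_filter, hZ, Finset.mem_filter] at hp
      have h13 : X ≤ p * p := (Nat.sqrt_lt.1 hp.2).le
      have h14 : Real.log X ≤ Real.log ((p : ℝ) * p) :=
        Real.log_le_log hX0 (by exact_mod_cast h13)
      have hp0 : (p : ℝ) ≠ 0 := by exact_mod_cast hp.1.2.1.ne_zero
      rw [Real.log_mul hp0 hp0] at h14
      linarith
    rw [← nsmul_eq_mul]
    refine h12.trans ?_
    unfold thetaAv
    apply Finset.sum_le_sum_of_subset_of_nonneg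
    · intro p hp
      rw [hZ2, Finset.mem_filter, hZ, Finset.mem_filter, Finset.mem_Icc] at hp
      rw [Finset.mem_filter, Finset.mem_Icc, Nat.floor_natCast]
      refine ⟨hp.1.1, hp.1.2.1, Nat.modEq_one, ?_⟩
      intro e he
      obtain ⟨h15, h16⟩ := hLmem e he
      rw [h16]
      exact hp.1.2.2 _ h15
    · intro p hp _
      rw [Finset.mem_filter, Finset.mem_Icc] at hp
      exact Real.log_nonneg (by exact_mod_cast hp.1.1)
  have hZ2c : (Z2.card : ℝ) ≤ ε / 4 * ((X : ℝ) / Real.log X) := by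
    rw [← mul_div_assoc, le_div_iff₀ hlog]
    linarith
  have hsq : ((Nat.sqrt X : ℕ) : ℝ) ≤ √(X : ℝ) := Real.nat_sqrt_le_real_sqrt
  have hfin : ((fam x X ∩ fam x' X).card : ℝ) ≤ R.card + (Nat.sqrt X + Z2.card) := by
    exact_mod_cast hcard1.trans (Nat.add_le_add_left hcard2 _)
  have hg : 0 ≤ (X : ℝ) / Real.log X := by positivity
  nlinarith

/-- the integers `n ≤ X` with `n ≡ a` modulo `m` in the family of `x`, with large summands -/
noncomputable def famIn (m a B x X : ℕ) : Finset ℕ :=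
  open Classical in
  (Finset.Icc 1 X).filter
    (fun n => n ≡ a [MOD m] ∧ ∃ l, B < l ∧ (1 + x * l).Prime ∧ n = x + 2 + (x + 1) * l)

theorem famIn_subset (m a B x X : ℕ) : famIn m a B x X ⊆ fam x X := by
  classical
  intro n hn
  unfold famIn at hn
  unfold fam
  rw [Finset.mem_filter] at hn ⊢
  obtain ⟨h1, -, l, -, h2, h3⟩ := hn
  exact ⟨h1, l, h2, h3⟩

/-- the family of a multiple `x` of `m` has at least `X / (3 x m log X)` members up to `X` in each
residue class modulo `m` -/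
theorem lower (m a B x : ℕ) (hm : 0 < m) (hmx : m ∣ x) (hx1 : B < x) :
    ∀ᶠ X : ℕ in atTop, 1 / (3 * (x : ℝ) * m) * ((X : ℝ) / Real.log X) ≤
      ((famIn m a B x X).card : ℝ) := by
  classical
  have hx0 : 0 < x := by omega
  obtain ⟨k, hk⟩ := hmx
  obtain ⟨t, ht⟩ : ∃ t, t + 2 = a + 3 * x := ⟨a + 3 * x - 2, by omega⟩
  obtain ⟨q, hq⟩ : ∃ q, q = x * m := ⟨_, rfl⟩
  have hq0 : 0 < q := by rw [hq]; positivity
  have : NeZero q := ⟨hq0.ne'⟩
  have hcop : Nat.Coprime (1 + x * t) q := by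
    have h1 : Nat.Coprime (1 + x * t) x := by
      exact (Nat.coprime_add_mul_left_left 1 x t).2 (Nat.coprime_one_left x)
    have h2 : Nat.Coprime (1 + x * t) m := Nat.Coprime.coprime_dvd_right ⟨k, hk⟩ h1
    rw [hq]
    exact Nat.Coprime.mul_right h1 h2
  have hb : IsUnit (((1 + x * t : ℕ)) : ZMod q) := (ZMod.unitOfCoprime _ hcop).isUnit
  have h1 := Pool.Agent.Helper64.PNT.thetaAP_tendsto hb
  have h2 : Tendsto (fun X : ℕ => (2 / 5 : ℝ) * (X : ℝ)) atTop atTop :=
    tendsto_natCast_atTop_atTop.const_mul_atTop (by norm_num)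
  have h3 := h1.comp h2
  have hφ0 : (0 : ℝ) < q.totient := by exact_mod_cast Nat.totient_pos.2 hq0
  have hφq : (q.totient : ℝ) ≤ q := by exact_mod_cast Nat.totient_le q
  have hqR : (0 : ℝ) < q := by exact_mod_cast hq0
  have h4 : ∀ᶠ X : ℕ in atTop, (9 / 10) * (q.totient : ℝ)⁻¹ <
      Pool.Agent.Helper64.PNT.thetaAP (((1 + x * t : ℕ)) : ZMod q) ((2 / 5 : ℝ) * (X : ℝ)) /
        ((2 / 5 : ℝ) * (X : ℝ)) := by
    refine h3.eventually (lt_mem_nhds ?_)
    have : (0 : ℝ) < (q.totient : ℝ)⁻¹ := inv_pos.2 hφ0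
    linarith
  obtain ⟨K, hK⟩ : ∃ K, K = x * B + 1 := ⟨_, rfl⟩
  filter_upwards [h4, eventually_const_le K (1 / (50 * (q : ℝ))) (by positivity),
    eventually_ge_atTop (5 * x + 10)] with X hX4 hX5 hX6
  have hXpos : 0 < X := by omega
  have hXR : (0 : ℝ) < X := by exact_mod_cast hXpos
  have hlog : 0 < Real.log (X : ℝ) := Real.log_pos (by exact_mod_cast (by omega : 1 < X))
  obtain ⟨S, hS⟩ : ∃ S : Finset ℕ, S = (Finset.Icc 1 ⌊(2 / 5 : ℝ) * (X : ℝ)⌋₊).filter
    (fun p : ℕ => p.Prime ∧ (p : ZMod q) = ((1 + x * t : ℕ) : ZMod q)) := ⟨_, rfl⟩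
  have hSX : ∀ p ∈ S, p.Prime ∧ p ≡ 1 + x * t [MOD q] ∧ 5 * p ≤ 2 * X := by
    intro p hp
    rw [hS, Finset.mem_filter, Finset.mem_Icc] at hp
    obtain ⟨⟨_, hp2⟩, hp3, hp4⟩ := hp
    refine ⟨hp3, (ZMod.natCast_eq_natCast_iff _ _ _).1 hp4, ?_⟩
    have h7 : (p : ℝ) ≤ (2 / 5 : ℝ) * (X : ℝ) := (Nat.le_floor_iff (by positivity)).1 hp2
    have h8 : (5 : ℝ) * p ≤ 2 * X := by linarith
    exact_mod_cast h8
  have hθ : Pool.Agent.Helper64.PNT.thetaAP (((1 + x * t : ℕ)) : ZMod q) ((2 / 5 : ℝ) * (X : ℝ)) ≤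
      S.card * Real.log X := by
    unfold Pool.Agent.Helper64.PNT.thetaAP
    rw [← hS, ← nsmul_eq_mul]
    apply Finset.sum_le_card_nsmul
    intro p hp
    obtain ⟨hp1, -, hp3⟩ := hSX p hp
    exact Real.log_le_log (by exact_mod_cast hp1.pos) (by exact_mod_cast (by omega : p ≤ X))
  have hcard : (9 / 25) * (X : ℝ) / q ≤ S.card * Real.log X := by
    refine le_trans ?_ hθ
    rw [lt_div_iff₀ (by positivity)] at hX4
    refine le_trans ?_ hX4.le
    have h9 : (q : ℝ)⁻¹ ≤ (q.totient : ℝ)⁻¹ := by gcongr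
    calc (9 / 25) * (X : ℝ) / q = (9 / 25) * (X : ℝ) * (q : ℝ)⁻¹ := by rw [div_eq_mul_inv]
      _ ≤ (9 / 25) * (X : ℝ) * (q.totient : ℝ)⁻¹ := by gcongr
      _ = _ := by ring
  obtain ⟨S', hS'⟩ : ∃ S' : Finset ℕ, S' = S.filter (fun p => K < p) := ⟨_, rfl⟩
  have hcard2 : S.card ≤ S'.card + K := by
    have h10 : S ⊆ S' ∪ Finset.Icc 1 K := by
      intro p hp
      rw [Finset.mem_union, hS', Finset.mem_filter, Finset.mem_Icc]
      have := (hSX p hp).1.pos
      by_cases h : K < p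
      · exact Or.inl ⟨hp, h⟩
      · exact Or.inr ⟨by omega, by omega⟩
    calc S.card ≤ (S' ∪ Finset.Icc 1 K).card := Finset.card_le_card h10
      _ ≤ S'.card + (Finset.Icc 1 K).card := Finset.card_union_le _ _
      _ = S'.card + K := by rw [Nat.card_Icc]; omega
  have hl : ∀ p ∈ S', ∃ l, p = 1 + x * l ∧ B < l ∧ l ≡ t [MOD m] := by
    intro p hp
    rw [hS', Finset.mem_filter] at hp
    obtain ⟨hp1, hp2⟩ := hp
    obtain ⟨-, hp4, -⟩ := hSX p hp1
    have h11 : p ≡ 1 [MOD x] := by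
      have h12 : p ≡ 1 + x * t [MOD x] := Nat.ModEq.of_dvd ⟨m, hq⟩ hp4
      refine h12.trans ?_
      exact ((Nat.modEq_iff_dvd' (Nat.le_add_right _ _)).2 (by simp)).symm
    obtain ⟨l, hl⟩ := (Nat.modEq_iff_dvd' (by omega : 1 ≤ p)).1 h11.symm
    have hpl : p = 1 + x * l := by omega
    refine ⟨l, hpl, ?_, ?_⟩
    · have h13 : x * B < x * l := by omega
      exact Nat.lt_of_mul_lt_mul_left h13
    · rw [hpl, hq] at hp4
      have h14 : x * l ≡ x * t [MOD x * m] := Nat.ModEq.add_left_cancel' 1 hp4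
      exact Nat.ModEq.mul_left_cancel' hx0.ne' h14
  have himg : ∀ p ∈ S', x + 2 + (x + 1) * ((p - 1) / x) ∈ famIn m a B x X := by
    intro p hp
    obtain ⟨l, hpl, hBl, hlt⟩ := hl p hp
    rw [hS', Finset.mem_filter] at hp
    obtain ⟨hp1, hp2⟩ := hp
    obtain ⟨hpp, -, hp5⟩ := hSX p hp1
    have h15 : (p - 1) / x = l := by
      rw [hpl, Nat.add_sub_cancel_left]
      exact Nat.mul_div_cancel_left l hx0
    unfold famIn
    rw [h15, Finset.mem_filter, Finset.mem_Icc]
    refine ⟨⟨by omega, ?_⟩, ?_, l, hBl, hpl ▸ hpp, rfl⟩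
    · have h16 : l ≤ x * l := Nat.le_mul_of_pos_left l hx0
      have h17 : (x + 1) * l = x * l + l := by ring
      omega
    · have h18 : x + 2 + (x + 1) * l = (2 + l) + m * (k * (1 + l)) := by
        rw [hk]
        ring
      rw [h18]
      have h19 : 2 + l + m * (k * (1 + l)) ≡ 2 + l [MOD m] :=
        ((Nat.modEq_iff_dvd' (Nat.le_add_right _ _)).2 (by simp)).symm
      refine h19.trans ((Nat.ModEq.add_left 2 hlt).trans ?_)
      have h20 : 2 + t = a + m * (3 * k) := by
        rw [add_comm, ht, hk]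
        ring
      rw [h20]
      exact ((Nat.modEq_iff_dvd' (Nat.le_add_right _ _)).2 (by simp)).symm
  have hinj : Set.InjOn (fun p => x + 2 + (x + 1) * ((p - 1) / x)) (S' : Set ℕ) := by
    intro p hp p' hp' h
    obtain ⟨l, hpl, -, -⟩ := hl p hp
    obtain ⟨l', hpl', -, -⟩ := hl p' hp'
    have h15 : (p - 1) / x = l := by
      rw [hpl, Nat.add_sub_cancel_left]
      exact Nat.mul_div_cancel_left l hx0
    have h15' : (p' - 1) / x = l' := by
      rw [hpl', Nat.add_sub_cancel_left]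
      exact Nat.mul_div_cancel_left l' hx0
    simp only [h15, h15'] at h
    have h22 : (x + 1) * l = (x + 1) * l' := by omega
    have h23 : l = l' := Nat.eq_of_mul_eq_mul_left (Nat.succ_pos x) h22
    rw [hpl, hpl', h23]
  have hT2 : S'.card ≤ (famIn m a B x X).card := by
    rw [← Finset.card_image_of_injOn hinj]
    apply Finset.card_le_card
    intro n hn
    obtain ⟨p, hp, rfl⟩ := Finset.mem_image.1 hn
    exact himg p hp
  have h24 : (S.card : ℝ) ≤ (famIn m a B x X).card + K := by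
    exact_mod_cast hcard2.trans (by omega)
  have h25 : (S.card : ℝ) ≤ (famIn m a B x X).card + 1 / (50 * (q : ℝ)) * (X / Real.log X) := by
    linarith
  have h26 : 9 / 25 * (1 / (q : ℝ)) * (X / Real.log X) ≤ S.card := by
    rw [← mul_div_assoc, div_le_iff₀ hlog]
    refine le_trans (le_of_eq ?_) hcard
    ring
  have h27 : 1 / (3 * (x : ℝ) * m) = 1 / 3 * (1 / (q : ℝ)) := by
    rw [hq]
    push_cast
    field_simp
  have h28 : 1 / (50 * (q : ℝ)) = 1 / 50 * (1 / (q : ℝ)) := by ring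
  rw [h27]
  rw [h28] at h25
  have h30 : 0 ≤ (1 / (q : ℝ)) * (X / Real.log X) := by positivity
  nlinarith

/-- the first `J` families together: at least the sum of the constants, less `ε` -/
theorem union_lower (m a B : ℕ) (hm : 0 < m) (J : ℕ) : ∀ ε : ℝ, 0 < ε →
    ∀ᶠ X : ℕ in atTop, (∑ j ∈ Finset.range J, 1 / (3 * ((m * (B + 1) * (j + 1) : ℕ) : ℝ) * m) - ε) *
      ((X : ℝ) / Real.log X) ≤
        (((Finset.range J).biUnion (fun j => famIn m a B (m * (B + 1) * (j + 1)) X)).card : ℝ) := by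
  classical
  induction J with
  | zero =>
    intro ε hε
    filter_upwards [eventually_ge_atTop 2] with X hX
    have hlog : 0 < Real.log (X : ℝ) := Real.log_pos (by exact_mod_cast (by omega : 1 < X))
    have hg : 0 ≤ (X : ℝ) / Real.log X := by positivity
    simp only [Finset.range_zero, Finset.sum_empty, Finset.biUnion_empty, Finset.card_empty,
      Nat.cast_zero]
    nlinarith
  | succ J ih =>
    intro ε hε
    have hMB : 0 < m * (B + 1) := Nat.mul_pos hm (Nat.succ_pos B)
    have h1 : ∀ᶠ X : ℕ in atTop, ∀ j ∈ Finset.range J,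
        ((fam (m * (B + 1) * (j + 1)) X ∩ fam (m * (B + 1) * (J + 1)) X).card : ℝ) ≤
          (ε / (2 * (J + 1))) * ((X : ℝ) / Real.log X) := by
      rw [Filter.eventually_all_finset]
      intro j hj
      rw [Finset.mem_range] at hj
      apply pair _ _ (by positivity) (by positivity) _ _ (by positivity)
      intro h
      have := Nat.eq_of_mul_eq_mul_left hMB h
      omega
    have h2 := lower m a B (m * (B + 1) * (J + 1)) hm ⟨(B + 1) * (J + 1), by ring⟩ (by
      have h3 : 1 * (B + 1) ≤ m * (B + 1) := Nat.mul_le_mul_right _ hm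
      have h4 : m * (B + 1) * 1 ≤ m * (B + 1) * (J + 1) := Nat.mul_le_mul_left _ (by omega)
      omega)
    filter_upwards [h1, h2, ih (ε / 2) (by positivity), eventually_ge_atTop 2] with X h5 h6 h7 hX
    have hlog : 0 < Real.log (X : ℝ) := Real.log_pos (by exact_mod_cast (by omega : 1 < X))
    have hg : 0 ≤ (X : ℝ) / Real.log X := by positivity
    rw [Finset.sum_range_succ, Finset.range_add_one, Finset.biUnion_insert]
    obtain ⟨U, hU⟩ : ∃ U, U = (Finset.range J).biUnion
      (fun j => famIn m a B (m * (B + 1) * (j + 1)) X) := ⟨_, rfl⟩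
    obtain ⟨V, hV⟩ : ∃ V, V = famIn m a B (m * (B + 1) * (J + 1)) X := ⟨_, rfl⟩
    rw [← hU] at h7 ⊢
    rw [← hV] at h6 ⊢
    have h8 : (U ∩ V).card ≤ ∑ j ∈ Finset.range J,
        (fam (m * (B + 1) * (j + 1)) X ∩ fam (m * (B + 1) * (J + 1)) X).card := by
      refine le_trans (Finset.card_le_card ?_) Finset.card_biUnion_le
      intro n hn
      rw [Finset.mem_inter, hU, Finset.mem_biUnion, hV] at hn
      obtain ⟨⟨j, hj, hn1⟩, hn2⟩ := hn
      rw [Finset.mem_biUnion]
      exact ⟨j, hj, Finset.mem_inter.2 ⟨famIn_subset _ _ _ _ _ hn1, famIn_subset _ _ _ _ _ hn2⟩⟩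
    have h9 : ((U ∩ V).card : ℝ) ≤ ε / 2 * ((X : ℝ) / Real.log X) := by
      calc ((U ∩ V).card : ℝ) ≤ ∑ j ∈ Finset.range J,
          ((fam (m * (B + 1) * (j + 1)) X ∩ fam (m * (B + 1) * (J + 1)) X).card : ℝ) := by
            exact_mod_cast h8
        _ ≤ ∑ j ∈ Finset.range J, (ε / (2 * (J + 1))) * ((X : ℝ) / Real.log X) :=
            Finset.sum_le_sum h5
        _ = J * ((ε / (2 * (J + 1))) * ((X : ℝ) / Real.log X)) := by
            rw [Finset.sum_const, Finset.card_range, nsmul_eq_mul]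
        _ ≤ (J + 1) * ((ε / (2 * (J + 1))) * ((X : ℝ) / Real.log X)) := by
            apply mul_le_mul_of_nonneg_right (by linarith) (by positivity)
        _ = ε / 2 * ((X : ℝ) / Real.log X) := by field_simp
    have h10 : ((V ∪ U).card : ℝ) + (U ∩ V).card = V.card + U.card := by
      rw [Finset.inter_comm U V]
      exact_mod_cast Finset.card_union_add_card_inter V U
    have h11 : (∑ j ∈ Finset.range J, 1 / (3 * ((m * (B + 1) * (j + 1) : ℕ) : ℝ) * m) +
        1 / (3 * ((m * (B + 1) * (J + 1) : ℕ) : ℝ) * m) - ε) * ((X : ℝ) / Real.log X) =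
        (∑ j ∈ Finset.range J, 1 / (3 * ((m * (B + 1) * (j + 1) : ℕ) : ℝ) * m) - ε / 2) *
          ((X : ℝ) / Real.log X) +
        1 / (3 * ((m * (B + 1) * (J + 1) : ℕ) : ℝ) * m) * ((X : ℝ) / Real.log X) -
          ε / 2 * ((X : ℝ) / Real.log X) := by ring
    rw [h11]
    linarith

/-- in each residue class modulo `m` the number of representable `n ≤ X` with large summands is
larger than any multiple of `X / log X` -/
theorem count (m a B : ℕ) (hm : 0 < m) (C : ℝ) :
    ∀ᶠ X : ℕ in atTop, C * ((X : ℝ) / Real.log X) ≤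
      ({n : ℕ | n ≤ X ∧ n ≡ a [MOD m] ∧ ∃ x y z p : ℕ, B < x ∧ B < y ∧ B < z ∧
        p.Prime ∧ n = x + y + z ∧ x * y * z + 1 = p ^ 2}.ncard : ℝ) := by
  classical
  have hm0 : (0 : ℝ) < m := by exact_mod_cast hm
  obtain ⟨J, hJ⟩ := (Real.tendsto_sum_range_one_div_nat_succ_atTop.eventually_ge_atTop
    ((C + 1) * (3 * (m : ℝ) ^ 2 * (B + 1)))).exists
  have hJ2 : C + 1 ≤ ∑ j ∈ Finset.range J, 1 / (3 * ((m * (B + 1) * (j + 1) : ℕ) : ℝ) * m) := by
    have h1 : ∑ j ∈ Finset.range J, 1 / (3 * ((m * (B + 1) * (j + 1) : ℕ) : ℝ) * m) =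
        (∑ j ∈ Finset.range J, 1 / ((j : ℝ) + 1)) / (3 * (m : ℝ) ^ 2 * (B + 1)) := by
      rw [Finset.sum_div]
      apply Finset.sum_congr rfl
      intro j _
      push_cast
      field_simp
    rw [h1, le_div_iff₀ (by positivity)]
    exact hJ
  filter_upwards [union_lower m a B hm J 1 one_pos, eventually_ge_atTop 2] with X h1 hX
  have hlog : 0 < Real.log (X : ℝ) := Real.log_pos (by exact_mod_cast (by omega : 1 < X))
  have hg : 0 ≤ (X : ℝ) / Real.log X := by positivity
  have h2 : C * ((X : ℝ) / Real.log X) ≤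
      (∑ j ∈ Finset.range J, 1 / (3 * ((m * (B + 1) * (j + 1) : ℕ) : ℝ) * m) - 1) *
        ((X : ℝ) / Real.log X) := mul_le_mul_of_nonneg_right (by linarith) hg
  refine (h2.trans h1).trans ?_
  rw [← Set.ncard_coe_finset]
  have hfin : {n : ℕ | n ≤ X ∧ n ≡ a [MOD m] ∧ ∃ x y z p : ℕ, B < x ∧ B < y ∧ B < z ∧
      p.Prime ∧ n = x + y + z ∧ x * y * z + 1 = p ^ 2}.Finite :=
    (Set.finite_Iic X).subset (fun n hn => hn.1)
  have hsub : (((Finset.range J).biUnion
      (fun j => famIn m a B (m * (B + 1) * (j + 1)) X) : Finset ℕ) : Set ℕ) ⊆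
      {n : ℕ | n ≤ X ∧ n ≡ a [MOD m] ∧ ∃ x y z p : ℕ, B < x ∧ B < y ∧ B < z ∧
        p.Prime ∧ n = x + y + z ∧ x * y * z + 1 = p ^ 2} := by
    intro n hn
    rw [Finset.mem_coe, Finset.mem_biUnion] at hn
    obtain ⟨j, -, hn⟩ := hn
    unfold famIn at hn
    rw [Finset.mem_filter, Finset.mem_Icc] at hn
    obtain ⟨⟨-, hn1⟩, hn2, l, hl1, hl2, hl3⟩ := hn
    obtain ⟨x, hx⟩ : ∃ x, x = m * (B + 1) * (j + 1) := ⟨_, rfl⟩
    rw [← hx] at hl2 hl3
    have hBx : B < x := by
      have h3 : 1 * (B + 1) ≤ m * (B + 1) := Nat.mul_le_mul_right _ hm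
      have h4 : m * (B + 1) * 1 ≤ m * (B + 1) * (j + 1) := Nat.mul_le_mul_left _ (by omega)
      omega
    have h5 : l ≤ x * l := Nat.le_mul_of_pos_left l (by omega)
    refine ⟨hn1, hn2, x, l, 1 + x * l + 1, 1 + x * l, hBx, hl1, by omega, hl2, ?_, by ring⟩
    rw [hl3]
    ring
  exact_mod_cast Set.ncard_le_ncard hsub hfin

/-- (1) For all `m ≥ 1`, `a`, `B` and `C` and all large `X` at least `C X / log X` of the integers
`n ≤ X` with `n ≡ a` modulo `m` are sums of three integers greater than `B` whose product is one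
less than the square of a prime. (2) A solution of `x y z + 1 = u ^ 2` in positive integers with `u`
coprime to `m` can be moved, within the same residue classes modulo `m`, to infinitely many
solutions in which the square root is a prime. -/
theorem result :
    (∀ m a B : ℕ, 0 < m → ∀ C : ℝ,
      ∀ᶠ X : ℕ in atTop, C * ((X : ℝ) / Real.log X) ≤
        ({n : ℕ | n ≤ X ∧ n ≡ a [MOD m] ∧ ∃ x y z p : ℕ, B < x ∧ B < y ∧ B < z ∧
          p.Prime ∧ n = x + y + z ∧ x * y * z + 1 = p ^ 2}.ncard : ℝ)) ∧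
    (∀ m x y z u : ℕ, 0 < m → 0 < x → 0 < y → 0 < z → u.Coprime m → x * y * z + 1 = u ^ 2 →
      {z' : ℕ | z' ≡ z [MOD m] ∧ ∃ p : ℕ, p.Prime ∧ p ≡ u [MOD m] ∧
        x * y * z' + 1 = p ^ 2}.Infinite) := by
  constructor
  · exact fun m a B hm C => count m a B hm C
  · intro m x y z u hm hx hy _ hu h
    apply Set.infinite_of_forall_exists_gt
    intro N
    obtain ⟨z', p, h1, h2, h3, h4, h5⟩ := lift m x y z u hm hx hy hu h N
    exact ⟨z', ⟨h3, p, h2, h4, h5⟩, h1⟩

end Pool.Agent.Results.MP_7031b2_nt.NoCongruenceObstruction
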